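import Pool.Agent.W516.KU.Defs
import Pool.Agent.W327.DK.IRR

/-!
# Project KU, part IRR: the stable subspaces
-/

set_option autoImplicit false
set_option linter.unusedSectionVars false

namespace Pool.Agent.W924.KU

open Module Pool.Agent.W516.K3 Pool.Agent.W516.KU W327.DK

section cliff

variable {F T H : Type} [Field F] [CharZero F] [AddCommGroup T] [Module F T]
  [AddCommGroup H] [Module F H] {b : T →ₗ[F] T →ₗ[F] F} {γ : T →ₗ[F] Module.End F H}

theorem sp_comm (hcl : ∀ u v, γ u * γ v + γ v * γ u = (2 * b u v) • (1 : Module.End F H))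
    (u v t : T) : sp γ u v * γ t - γ t * sp γ u v = (4 : F) • γ (wdg b u v t) := by
  have hB : γ v * γ t = (2 * b v t) • (1 : Module.End F H) - γ t * γ v :=
    eq_sub_of_add_eq (hcl v t)
  have hA : γ u * γ t = (2 * b u t) • (1 : Module.End F H) - γ t * γ u :=
    eq_sub_of_add_eq (hcl u t)
  have e1 : γ u * γ v * γ t = (2 * b v t) • γ u - (2 * b u t) • γ v + γ t * γ u * γ v := by
    rw [mul_assoc, hB, mul_sub, mul_smul_comm, mul_one, ← mul_assoc, hA, sub_mul, smul_mul_assoc,
      one_mul]
    abel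
  have e2 : γ v * γ u * γ t = (2 * b u t) • γ v - (2 * b v t) • γ u + γ t * γ v * γ u := by
    rw [mul_assoc, hA, mul_sub, mul_smul_comm, mul_one, ← mul_assoc, hB, sub_mul, smul_mul_assoc,
      one_mul]
    abel
  have e3 : wdg b u v t = b v t • u - b u t • v := rfl
  rw [e3, map_sub, map_smul, map_smul]
  unfold sp
  rw [sub_mul, mul_sub, e1, e2, ← mul_assoc, ← mul_assoc]
  module

theorem sJ_comm (hcl : ∀ u v, γ u * γ v + γ v * γ u = (2 * b u v) • (1 : Module.End F H))
    (J : Module.End F T) (u v t : T) :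
    sJ γ J u v * γ t - γ t * sJ γ J u v = (4 : F) • γ (xx b J u v t) := by
  have h1 := sp_comm hcl u v t
  have h2 := sp_comm hcl (J u) (J v) t
  have e3 : xx b J u v t = wdg b u v t + wdg b (J u) (J v) t := rfl
  unfold sJ
  rw [e3, map_add, smul_add, ← h1, ← h2, add_mul, mul_add]
  abel

/-- stability under the generated algebra -/
theorem stab_adjoin {S : Set (Module.End F H × Module.End F T)} (N : Submodule F H)
    (hN : ∀ p ∈ S, ∀ s ∈ N, p.1 s ∈ N) :
    ∀ Z ∈ Algebra.adjoin F {Z | ∃ p ∈ S, p.1 = Z}, ∀ s ∈ N, Z s ∈ N := by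
  intro Z hZ'
  induction hZ' using Algebra.adjoin_induction with
  | mem x hx => obtain ⟨p, hp, rfl⟩ := hx; exact hN p hp
  | algebraMap r => intro s hs; rw [Module.algebraMap_end_apply]; exact N.smul_mem r hs
  | add x y _ _ hx hy => intro s hs; exact N.add_mem (hx s hs) (hy s hs)
  | mul x y _ _ hx hy => intro s hs; exact hx _ (hy s hs)

theorem mem_of_orth [FiniteDimensional F T] (hb : ∀ u v, b u v = b v u)
    (hnd : ∀ u, (∀ v, b u v = 0) → u = 0) (N : Submodule F T) {y : T}
    (h : ∀ z, (∀ n ∈ N, b n z = 0) → b z y = 0) : y ∈ N := by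
  have hrefl : LinearMap.BilinForm.IsRefl b := fun x y h => by rw [hb]; exact h
  have hnd' : LinearMap.BilinForm.Nondegenerate b := by
    refine ⟨fun u hu => hnd u hu, fun u hu => hnd u fun v => ?_⟩
    rw [hb]
    exact hu v
  have h1 := LinearMap.BilinForm.orthogonal_orthogonal hnd' hrefl N
  rw [← h1]
  intro z hz
  exact h z fun n hn => hz n hn

theorem stepA [FiniteDimensional F T] [Nontrivial H] (hb : ∀ u v, b u v = b v u)
    (hnd : ∀ u, (∀ v, b u v = 0) → u = 0)
    (hcl : ∀ u v, γ u * γ v + γ v * γ u = (2 * b u v) • (1 : Module.End F H))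
    (J : Module.End F T) (S : Set (Module.End F H × Module.End F T))
    (hZ : ∀ p ∈ S, IsLift γ p.1 p.2)
    (hA : ∀ u v, sJ γ J u v ∈ Algebra.adjoin F {Z | ∃ p ∈ S, p.1 = Z})
    (N : Submodule F T) (hiso : ∀ w ∈ N, ∀ w' ∈ N, b w w' = 0)
    (hN : ∀ p ∈ S, ∀ w ∈ N, p.2 w ∈ N) (u v : T) : ∀ t ∈ N, xx b J u v t ∈ N := by
  intro t ht
  obtain ⟨s, hs, hsN⟩ := exists_ann hcl N hiso
  let K : Submodule F H :=
    { carrier := {s | ∀ w ∈ N, γ w s = 0}
      zero_mem' := fun w _ => map_zero _
      add_mem' := fun {x y} hx hy w hw => by rw [map_add, hx w hw, hy w hw, add_zero]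
      smul_mem' := fun c {x} hx w hw => by rw [map_smul, hx w hw, smul_zero] }
  have hK : ∀ p ∈ S, ∀ s ∈ K, p.1 s ∈ K := by
    intro p hp s hs w hw
    have h1 := congrArg (fun f : Module.End F H => f s) (hZ p hp w)
    simp only [LinearMap.sub_apply, Module.End.mul_apply] at h1
    have h2 : γ (p.2 w) s = 0 := hs _ (hN p hp w hw)
    have h3 : γ w s = 0 := hs w hw
    rw [h2, h3, map_zero, zero_sub, neg_eq_zero] at h1
    exact h1
  have hKs := stab_adjoin K hK _ (hA u v)
  have hy : ∀ r ∈ K, γ (xx b J u v t) r = 0 := by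
    intro r hr
    have h1 := congrArg (fun f : Module.End F H => f r) (sJ_comm hcl J u v t)
    simp only [LinearMap.sub_apply, Module.End.mul_apply, LinearMap.smul_apply] at h1
    have h2 : γ t r = 0 := hr t ht
    have h3 : γ t (sJ γ J u v r) = 0 := hKs r hr t ht
    rw [h2, h3, map_zero, sub_zero] at h1
    exact (smul_eq_zero.1 h1.symm).resolve_left (by norm_num)
  refine mem_of_orth hb hnd N fun z hz => ?_
  have hzs : γ z s ∈ K := by
    intro w hw
    have h1 := congrArg (fun f : Module.End F H => f s) (ganti hcl (hz w hw))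
    simp only [Module.End.mul_apply, LinearMap.neg_apply] at h1
    rw [hsN w hw, map_zero] at h1
    exact neg_eq_zero.1 h1.symm
  have h1 := congrArg (fun f : Module.End F H => f s) (hcl z (xx b J u v t))
  simp only [LinearMap.add_apply, Module.End.mul_apply, LinearMap.smul_apply,
    Module.End.one_apply] at h1
  rw [hy s hsN, map_zero, zero_add, hy _ hzs] at h1
  rcases smul_eq_zero.1 h1.symm with h | h
  · exact (mul_eq_zero.1 h).resolve_left two_ne_zero
  · exact absurd h hs

theorem stepB [FiniteDimensional F T] [Nontrivial H] (hb : ∀ u v, b u v = b v u)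
    (hnd : ∀ u, (∀ v, b u v = 0) → u = 0)
    (hcl : ∀ u v, γ u * γ v + γ v * γ u = (2 * b u v) • (1 : Module.End F H))
    (J : Module.End F T) (S : Set (Module.End F H × Module.End F T))
    (hZ : ∀ p ∈ S, IsLift γ p.1 p.2)
    (hsk : ∀ p ∈ S, ∀ u v, b (p.2 u) v + b u (p.2 v) = 0)
    (hA : ∀ u v, sJ γ J u v ∈ Algebra.adjoin F {Z | ∃ p ∈ S, p.1 = Z})
    (U : Submodule F T) (hU : ∀ p ∈ S, ∀ w ∈ U, p.2 w ∈ U)
    (hdisj : U ⊓ LinearMap.BilinForm.orthogonal b U = ⊥) (u v : T) :
    ∀ t ∈ U, xx b J u v t ∈ U := by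
  classical
  set Uo : Submodule F T := LinearMap.BilinForm.orthogonal b U with hUodef
  have hUo : ∀ p ∈ S, ∀ u ∈ Uo, p.2 u ∈ Uo := by
    intro p hp u hu v hv
    have h1 := hsk p hp v u
    have h2 : b (p.2 v) u = 0 := hu _ (hU p hp v hv)
    rw [h2, zero_add] at h1
    exact h1
  have hrefl : LinearMap.BilinForm.IsRefl b := fun x y h => by rw [hb]; exact h
  have hcompl : IsCompl U Uo :=
    (LinearMap.BilinForm.isCompl_orthogonal_iff_disjoint hrefl).2 (disjoint_iff.2 hdisj)
  have hdec : ∀ z : T, ∃ x ∈ U, ∃ y ∈ Uo, z = x + y := by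
    intro z
    have h1 : z ∈ U ⊔ Uo := by rw [hcompl.sup_eq_top]; trivial
    obtain ⟨x, hx, y, hy, h2⟩ := Submodule.mem_sup.1 h1
    exact ⟨x, hx, y, hy, h2.symm⟩
  -- an orthogonal basis
  let _ : Invertible (2 : F) := invertibleOfNonzero two_ne_zero
  obtain ⟨e, he⟩ := LinearMap.BilinForm.exists_orthogonal_basis
    (B := LinearMap.BilinForm.restrict b U) ⟨fun x y => hb x y⟩
  have heo : ∀ i j, i ≠ j → b (e i : T) (e j : T) = 0 := fun i j hij => he hij
  have hspan : ∀ (N : Submodule F T), (∀ i, (e i : T) ∈ N) → ∀ u ∈ U, u ∈ N := by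
    intro N hN u hu
    have h1 : (⊤ : Submodule F U) ≤ N.comap U.subtype := by
      rw [← e.span_eq, Submodule.span_le]
      rintro _ ⟨i, rfl⟩
      exact hN i
    exact h1 (show (⟨u, hu⟩ : U) ∈ ⊤ from trivial)
  have hea : ∀ i, b (e i : T) (e i : T) ≠ 0 := by
    intro i hi
    have h1 : (e i : T) ∈ Uo := by
      intro u hu
      have h2 := hspan (LinearMap.ker (b (e i : T))) (fun j => by
        rw [LinearMap.mem_ker]
        by_cases hij : i = j
        · rw [← hij]; exact hi
        · exact heo i j hij) u hu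
      rw [LinearMap.mem_ker] at h2
      show b u (e i : T) = 0
      rw [hb]; exact h2
    have h2 : (e i : T) ∈ U ⊓ Uo := ⟨(e i).2, h1⟩
    rw [hdisj, Submodule.mem_bot] at h2
    exact e.ne_zero i (Subtype.ext h2)
  set l : List T := List.ofFn (fun i => (e i : T)) with hl
  have hlp : l.Pairwise (fun u v => b u v = 0) := by
    rw [hl, List.pairwise_ofFn]
    intro i j hij
    exact heo i j hij.ne
  have hlm : ∀ u ∈ l, ∃ i, u = (e i : T) := by
    intro u hu
    rw [hl, List.mem_ofFn] at hu
    obtain ⟨i, hi⟩ := hu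
    exact ⟨i, hi.symm⟩
  set P : Module.End F H := (l.map γ).prod with hP
  set ε : F := - (-1 : F) ^ l.length with hε
  have hεε : ε * ε = 1 := by
    rw [hε, neg_mul_neg, ← mul_pow, neg_one_mul, neg_neg, one_pow]
  obtain ⟨a, ha0, haP⟩ := sq_list hcl hb l hlp (by
    intro u hu
    obtain ⟨i, rfl⟩ := hlm u hu
    exact hea i)
  have ruleU : ∀ v ∈ U, γ v * P = ε • (P * γ v) := by
    let N : Submodule F T :=
      { carrier := {v | γ v * P = ε • (P * γ v)}
        zero_mem' := by simp
        add_mem' := fun {x y} hx hy => by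
          show γ (x + y) * P = ε • (P * γ (x + y))
          have hx' : γ x * P = ε • (P * γ x) := hx
          have hy' : γ y * P = ε • (P * γ y) := hy
          rw [map_add, add_mul, hx', hy', mul_add, smul_add]
        smul_mem' := fun c {x} hx => by
          show γ (c • x) * P = ε • (P * γ (c • x))
          have hx' : γ x * P = ε • (P * γ x) := hx
          rw [map_smul, smul_mul_assoc, hx', mul_smul_comm, smul_comm] }
    exact hspan N fun i => comm_mem hcl hb l hlp _ (by rw [hl, List.mem_ofFn]; exact ⟨i, rfl⟩)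
  have ruleO : ∀ v ∈ Uo, γ v * P = (-ε) • (P * γ v) := by
    intro v hv
    rw [hε, neg_neg]
    apply comm_list hcl
    intro u hu
    obtain ⟨i, rfl⟩ := hlm u hu
    exact hv _ (e i).2
  -- `P` commutes with everything
  have hcomm : ∀ p ∈ S, p.1 * P = P * p.1 := by
    intro p hp
    have q1 := rule_Q U (hZ p hp) (hU p hp) ruleU
    have q2 := rule_Q Uo (hZ p hp) (hUo p hp) ruleO
    set Q := p.1 * P - P * p.1 with hQ
    have c1 : ∀ v ∈ U, γ v * (P * Q) = P * Q * γ v := by
      intro v hv
      rw [← mul_assoc, ruleU v hv, smul_mul_assoc, mul_assoc, q1 v hv, mul_smul_comm, smul_smul,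
        hεε, one_smul, mul_assoc]
    have c3 : P * Q * P = P * (P * Q) := by
      have h1 : Commute (P * Q) P := by
        rw [hP]
        apply Commute.list_prod_right
        intro x hx
        obtain ⟨u, hu, rfl⟩ := List.mem_map.1 hx
        obtain ⟨i, rfl⟩ := hlm u hu
        exact (c1 _ (e i).2).symm
      exact h1
    have c4 : Q * P + P * Q = 0 := by
      rw [hQ, sub_mul, mul_sub, mul_assoc, haP, ← mul_assoc P P, haP, mul_assoc]
      simp
    have c5 : P * Q = - (Q * P) := (neg_eq_of_add_eq_zero_right c4).symm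
    have c6 : a • Q = - (a • Q) := by
      have h1 : P * (P * Q) = a • Q := by rw [← mul_assoc, haP, smul_mul_assoc, one_mul]
      have h2 : P * Q * P = - (a • Q) := by
        rw [c5, neg_mul, mul_assoc, haP, mul_smul_comm, mul_one]
      rw [← h2, ← h1, c3]
    have c7 : (2 : F) • (a • Q) = 0 := by
      rw [two_smul]
      nth_rewrite 1 [c6]
      rw [neg_add_cancel]
    have c8 : Q = 0 := by
      rcases smul_eq_zero.1 c7 with h | h
      · exact absurd h two_ne_zero
      · rcases smul_eq_zero.1 h with h | h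
        · exact absurd h ha0
        · exact h
    rw [hQ, sub_eq_zero] at c8
    exact c8
  have hcommA : ∀ Z ∈ Algebra.adjoin F {Z | ∃ p ∈ S, p.1 = Z}, Z * P = P * Z := by
    intro Z hZ'
    induction hZ' using Algebra.adjoin_induction with
    | mem x hx => obtain ⟨p, hp, rfl⟩ := hx; exact hcomm p hp
    | algebraMap r => exact Algebra.commutes r P
    | add x y _ _ hx hy => rw [add_mul, mul_add, hx, hy]
    | mul x y _ _ hx hy => rw [mul_assoc, hy, ← mul_assoc, hx, mul_assoc]
  intro t ht
  have f1 := hcommA _ (hA u v)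
  -- the rule for `xx u v t`
  have f2 : γ (xx b J u v t) * P = ε • (P * γ (xx b J u v t)) := by
    have g1 := sJ_comm hcl J u v t
    have g2 : ((4 : F) • γ (xx b J u v t)) * P = ε • (P * ((4 : F) • γ (xx b J u v t))) := by
      rw [← g1, sub_mul, mul_sub, mul_assoc, ruleU t ht, mul_smul_comm, ← mul_assoc, f1,
        mul_assoc (γ t), f1, ← mul_assoc (γ t), ruleU t ht, smul_mul_assoc, smul_sub, mul_assoc,
        mul_assoc]
    rw [smul_mul_assoc, mul_smul_comm, smul_comm ε] at g2
    exact smul_right_injective _ (by norm_num : (4 : F) ≠ 0) g2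
  obtain ⟨x, hx, y, hy, hxy⟩ := hdec (xx b J u v t)
  rw [hxy, map_add, add_mul, mul_add, smul_add, ruleU x hx, ruleO y hy, add_right_inj,
    neg_smul] at f2
  have f3 : P * γ y = 0 := by
    have h1 : (2 : F) • (ε • (P * γ y)) = 0 := by
      rw [two_smul]
      nth_rewrite 1 [← f2]
      rw [neg_add_cancel]
    rcases smul_eq_zero.1 h1 with h | h
    · exact absurd h two_ne_zero
    · rcases smul_eq_zero.1 h with h | h
      · rw [h, mul_zero] at hεε
        exact absurd hεε zero_ne_one
      · exact h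
  have f4 : γ y = 0 := by
    have h1 : P * (P * γ y) = a • γ y := by
      rw [← mul_assoc, haP, smul_mul_assoc, one_mul]
    rw [f3, mul_zero] at h1
    exact (smul_eq_zero.1 h1.symm).resolve_left ha0
  have f5 : y = 0 := by
    apply hnd
    intro z
    have h1 := hcl y z
    rw [f4, zero_mul, mul_zero, add_zero] at h1
    rcases smul_eq_zero.1 h1.symm with h | h
    · exact (mul_eq_zero.1 h).resolve_left two_ne_zero
    · exact absurd h one_ne_zero
  rw [hxy, f5, add_zero]
  exact hx

end cliff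

section herm

variable {F T : Type} [Field F] [CharZero F] [AddCommGroup T] [Module F T]
  {b : T →ₗ[F] T →ₗ[F] F} {J : Module.End F T} {i : F}

theorem mem_p {t : T} : t ∈ LinearMap.ker (J - i • 1) ↔ J t = i • t := by
  rw [LinearMap.mem_ker, LinearMap.sub_apply, LinearMap.smul_apply, Module.End.one_apply,
    sub_eq_zero]

theorem mem_m {t : T} : t ∈ LinearMap.ker (J + i • 1) ↔ J t = (-i) • t := by
  rw [LinearMap.mem_ker, LinearMap.add_apply, LinearMap.smul_apply, Module.End.one_apply,
    neg_smul, add_eq_zero_iff_eq_neg]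

theorem ker_neg : LinearMap.ker (J - (-i) • 1) = LinearMap.ker (J + i • 1) := by
  rw [neg_smul, sub_neg_eq_add]

theorem ker_neg' : LinearMap.ker (J + (-i) • 1) = LinearMap.ker (J - i • 1) := by
  rw [neg_smul, ← sub_eq_add_neg]

theorem iso_p (hH : Herm b J) (hi : i * i = -1) {u v : T} (hu : J u = i • u) (hv : J v = i • v) :
    b u v = 0 := by
  have h1 := hH.isom u v
  rw [hu, hv, map_smul, map_smul, LinearMap.smul_apply, smul_smul, hi, neg_smul, one_smul] at h1
  have h2 : (2 : F) * b u v = 0 := by linear_combination -h1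
  exact (mul_eq_zero.1 h2).resolve_left two_ne_zero

theorem decomp (hH : Herm b J) (hi : i * i = -1) (z : T) :
    ∃ x y : T, J x = i • x ∧ J y = (-i) • y ∧ z = x + y := by
  have hJ : J (J z) = - z := by
    have := congrArg (fun f : Module.End F T => f z) hH.sq
    simpa using this
  refine ⟨(1 / 2 : F) • (z - i • J z), (1 / 2 : F) • (z + i • J z), ?_, ?_, ?_⟩
  · rw [map_smul, map_sub, map_smul, hJ]
    match_scalars
    · linear_combination (1 / 2 : F) * hi
    · ring
  · rw [map_smul, map_add, map_smul, hJ]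
    match_scalars
    · linear_combination (1 / 2 : F) * hi
    · ring
  · module

theorem dual_p (hH : Herm b J) (hi : i * i = -1) {t : T} (ht : J t = i • t) (ht0 : t ≠ 0) :
    ∃ v : T, J v = (-i) • v ∧ b t v = 1 := by
  by_contra hcon
  push Not at hcon
  apply ht0
  apply hH.nondeg
  intro z
  obtain ⟨x, y, hx, hy, rfl⟩ := decomp hH hi z
  rw [map_add, iso_p hH hi ht hx, zero_add]
  by_contra hne
  refine hcon ((b t y)⁻¹ • y) ?_ ?_
  · rw [map_smul, hy, smul_comm]
  · rw [map_smul, smul_eq_mul, inv_mul_cancel₀ hne]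

theorem finrank_le (hH : Herm b J) (hi : i * i = -1) [FiniteDimensional F T] :
    finrank F (LinearMap.ker (J - i • 1)) ≤ finrank F (LinearMap.ker (J + i • 1)) := by
  rw [← Subspace.dual_finrank_eq (K := F) (V := LinearMap.ker (J + i • 1))]
  let f : LinearMap.ker (J - i • 1) →ₗ[F] Module.Dual F (LinearMap.ker (J + i • 1)) :=
    { toFun := fun t => (b t.1).domRestrict _
      map_add' := fun x y => by ext z; simp
      map_smul' := fun c x => by ext z; simp }
  refine LinearMap.finrank_le_finrank_of_injective (f := f) ?_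
  rw [← LinearMap.ker_eq_bot, LinearMap.ker_eq_bot']
  intro t ht
  by_contra hne
  obtain ⟨v, hv, htv⟩ := dual_p hH hi (mem_p.1 t.2) (fun h => hne (Subtype.ext h))
  have h1 := congrArg (fun g : Module.Dual F (LinearMap.ker (J + i • 1)) => g ⟨v, mem_m.2 hv⟩) ht
  have h2 : b t.1 v = 0 := h1
  rw [htv] at h2
  exact one_ne_zero h2

theorem two_le (hH : Herm b J) (hi : i * i = -1) [FiniteDimensional F T] (h5 : 5 ≤ finrank F T) :
    2 ≤ finrank F (LinearMap.ker (J + i • 1)) := by
  have h1 := finrank_le hH hi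
  have h2 : (⊤ : Submodule F T) ≤ LinearMap.ker (J - i • 1) ⊔ LinearMap.ker (J + i • 1) := by
    intro z _
    obtain ⟨x, y, hx, hy, rfl⟩ := decomp hH hi z
    exact Submodule.add_mem_sup (mem_p.2 hx) (mem_m.2 hy)
  have h3 := Submodule.finrank_mono h2
  have h4 := Submodule.finrank_add_le_finrank_add_finrank (LinearMap.ker (J - i • 1))
    (LinearMap.ker (J + i • 1))
  rw [finrank_top] at h3
  omega

theorem exists_orth (hH : Herm b J) (hi : i * i = -1) [FiniteDimensional F T]
    (h5 : 5 ≤ finrank F T) (t : T) : ∃ v : T, J v = (-i) • v ∧ v ≠ 0 ∧ b t v = 0 := by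
  have h1 : LinearMap.ker ((b t).domRestrict (LinearMap.ker (J + i • 1))) ≠ ⊥ := by
    apply LinearMap.ker_ne_bot_of_finrank_lt
    rw [finrank_self]
    have := two_le hH hi h5
    omega
  obtain ⟨v, hv, hv0⟩ := Submodule.exists_mem_ne_zero_of_ne_bot h1
  exact ⟨v.1, mem_m.1 v.2, fun h => hv0 (Subtype.ext h), hv⟩

theorem xx_pm (hH : Herm b J) (hi : i * i = -1) {u v : T} (hu : J u = i • u)
    (hv : J v = (-i) • v) (t : T) :
    xx b J u v t = (2 : F) • (b v t • u - b u t • v) := by
  have e3 : xx b J u v t = (b v t • u - b u t • v) + (b (J v) t • J u - b (J u) t • J v) := rfl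
  rw [e3, hu, hv, map_smul, map_smul, LinearMap.smul_apply, LinearMap.smul_apply]
  match_scalars
  · linear_combination (-(b v t)) * hi
  · linear_combination (b u t) * hi

/-- a nonzero element of the first eigenspace in a stable subspace -/
theorem full_p (hH : Herm b J) (hi : i * i = -1) {U : Submodule F T}
    (h : ∀ u v, ∀ t ∈ U, xx b J u v t ∈ U) {t : T} (ht : t ∈ U) (hJt : J t = i • t)
    (ht0 : t ≠ 0) : ∀ u, J u = i • u → u ∈ U := by
  intro u hu
  obtain ⟨v, hv, htv⟩ := dual_p hH hi hJt ht0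
  have h1 := h u v t ht
  rw [xx_pm hH hi hu hv, hH.symm v t, htv, iso_p hH hi hu hJt, one_smul, zero_smul, sub_zero] at h1
  have h2 := U.smul_mem (2 : F)⁻¹ h1
  rwa [smul_smul, inv_mul_cancel₀ (two_ne_zero), one_smul] at h2

theorem neg_hi (hi : i * i = -1) : (-i) * (-i) = -1 := by rw [neg_mul_neg, hi]

theorem full_m (hH : Herm b J) (hi : i * i = -1) {U : Submodule F T}
    (h : ∀ u v, ∀ t ∈ U, xx b J u v t ∈ U) {t : T} (ht : t ∈ U) (hJt : J t = (-i) • t)
    (ht0 : t ≠ 0) : ∀ u, J u = (-i) • u → u ∈ U :=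
  full_p hH (neg_hi hi) h ht hJt ht0

theorem stepC (hH : Herm b J) (hi : i * i = -1) [FiniteDimensional F T] (h5 : 5 ≤ finrank F T)
    {U : Submodule F T} (h : ∀ u v, ∀ t ∈ U, xx b J u v t ∈ U) :
    U = ⊥ ∨ U = ⊤ ∨ U = LinearMap.ker (J - i • 1) ∨ U = LinearMap.ker (J + i • 1) := by
  by_cases hm : ∀ t ∈ U, J t = (-i) • t
  · by_cases h0 : ∀ t ∈ U, t = 0
    · left
      rw [eq_bot_iff]
      intro t ht
      rw [Submodule.mem_bot]
      exact h0 t ht
    · push Not at h0
      obtain ⟨t, ht, ht0⟩ := h0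
      right; right; right
      apply le_antisymm
      · exact fun t ht => mem_m.2 (hm t ht)
      · exact fun u hu => full_m hH hi h ht (hm t ht) ht0 u (mem_m.1 hu)
  · by_cases hp : ∀ t ∈ U, J t = i • t
    · by_cases h0 : ∀ t ∈ U, t = 0
      · left
        rw [eq_bot_iff]
        intro t ht
        rw [Submodule.mem_bot]
        exact h0 t ht
      · push Not at h0
        obtain ⟨t, ht, ht0⟩ := h0
        right; right; left
        apply le_antisymm
        · exact fun t ht => mem_p.2 (hp t ht)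
        · exact fun u hu => full_p hH hi h ht (hp t ht) ht0 u (mem_p.1 hu)
    · right; left
      push Not at hm hp
      -- an element with both components
      obtain ⟨t, ht, htm⟩ := hm
      obtain ⟨s, hs, hsp⟩ := hp
      obtain ⟨t1, t2, ht1, ht2, rfl⟩ := decomp hH hi t
      obtain ⟨s1, s2, hs1, hs2, rfl⟩ := decomp hH hi s
      have ht10 : t1 ≠ 0 := by
        rintro rfl
        apply htm
        rw [zero_add, ht2]
      have hs20 : s2 ≠ 0 := by
        rintro rfl
        apply hsp
        rw [add_zero, hs1]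
      have key : ∃ x y : T, J x = i • x ∧ J y = (-i) • y ∧ x ≠ 0 ∧ y ≠ 0 ∧ x + y ∈ U := by
        by_cases a1 : t2 = 0
        · by_cases a2 : s1 = 0
          · refine ⟨t1, s2, ht1, hs2, ht10, hs20, ?_⟩
            have := U.add_mem ht hs
            rwa [a1, a2, add_zero, zero_add] at this
          · exact ⟨s1, s2, hs1, hs2, a2, hs20, hs⟩
        · exact ⟨t1, t2, ht1, ht2, ht10, a1, ht⟩
      obtain ⟨x, y, hx, hy, hx0, hy0, hxy⟩ := key
      -- a nonzero element of the second eigenspace
      have hmin : ∃ v ∈ U, J v = (-i) • v ∧ v ≠ 0 := by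
        obtain ⟨v, hv, hv0, hxv⟩ := exists_orth hH hi h5 x
        obtain ⟨u, hu, hyu⟩ := dual_p hH (neg_hi hi) hy hy0
        rw [neg_neg] at hu
        have h1 := h u v _ hxy
        rw [xx_pm hH hi hu hv] at h1
        have e1 : b v (x + y) = 0 := by
          rw [map_add, hH.symm v x, hxv, iso_p hH (neg_hi hi) hv hy, add_zero]
        have e2 : b u (x + y) = 1 := by
          rw [map_add, iso_p hH hi hu hx, hH.symm u y, hyu, zero_add]
        rw [e1, e2, zero_smul, one_smul, zero_sub] at h1
        have h2 := U.smul_mem (-(2 : F)⁻¹) h1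
        have h3 : (-(2 : F)⁻¹) • (2 : F) • (-v) = v := by
          rw [smul_smul, smul_neg, ← neg_smul]
          have : -(-(2 : F)⁻¹ * 2) = 1 := by
            rw [neg_mul, neg_neg, inv_mul_cancel₀ (two_ne_zero)]
          rw [this, one_smul]
        rw [h3] at h2
        exact ⟨v, h2, hv, hv0⟩
      obtain ⟨v, hvU, hv, hv0⟩ := hmin
      have hall := full_m hH hi h hvU hv hv0
      have hxU : x ∈ U := by
        have := U.sub_mem hxy (hall y hy)
        rwa [add_sub_cancel_right] at this
      have hall' := full_p hH hi h hxU hx hx0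
      rw [eq_top_iff]
      intro z _
      obtain ⟨z1, z2, hz1, hz2, rfl⟩ := decomp hH hi z
      exact U.add_mem (hall' z1 hz1) (hall z2 hz2)

/-- a subspace between an eigenspace and its orthogonal complement -/
theorem between (hH : Herm b J) (hi : i * i = -1) {U : Submodule F T}
    (h1 : LinearMap.ker (J - i • 1) ≤ U)
    (h2 : ∀ z ∈ U, ∀ n ∈ LinearMap.ker (J - i • 1), b n z = 0) :
    U = LinearMap.ker (J - i • 1) := by
  refine le_antisymm ?_ h1
  intro z hz
  obtain ⟨x, y, hx, hy, rfl⟩ := decomp hH hi z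
  have hy0 : y = 0 := by
    apply hH.nondeg
    intro w
    obtain ⟨w1, w2, hw1, hw2, rfl⟩ := decomp hH hi w
    have h3 := h2 _ hz w1 (mem_p.2 hw1)
    rw [map_add, iso_p hH hi hw1 hx, zero_add] at h3
    rw [map_add, hH.symm y w1, h3, iso_p hH (neg_hi hi) hy hw2, add_zero]
  rw [hy0, add_zero]
  exact mem_p.2 hx

end herm

theorem T_IRR : Pool.Agent.W516.KU.S_IRR := by
  intro F T H _ _ _ _ _ _ _ _ _ b J γ i S hH hi h5 hcl hZ hsk hA U hU
  set Uo : Submodule F T := LinearMap.BilinForm.orthogonal b U with hUodef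
  have hUo : ∀ p ∈ S, ∀ u ∈ Uo, p.2 u ∈ Uo := by
    intro p hp u hu v hv
    have h1 := hsk p hp v u
    have h2 : b (p.2 v) u = 0 := hu _ (hU p hp v hv)
    rw [h2, zero_add] at h1
    exact h1
  have hNx : ∀ u v, ∀ t ∈ U ⊓ Uo, xx b J u v t ∈ U ⊓ Uo :=
    stepA hH.symm hH.nondeg hcl J S hZ hA (U ⊓ Uo) (fun x hx y hy => hy.2 x hx.1)
      (fun p hp w hw => ⟨hU p hp w hw.1, hUo p hp w hw.2⟩)
  rcases stepC hH hi h5 hNx with h | h | h | h
  · exact stepC hH hi h5 (stepB hH.symm hH.nondeg hcl J S hZ hsk hA U hU h)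
  · right; left
    rw [eq_top_iff, ← h]
    exact inf_le_left
  · right; right; left
    refine between hH hi ?_ ?_
    · rw [← h]
      exact inf_le_left
    · intro z hz n hn
      rw [← h] at hn
      rw [hH.symm]
      exact hn.2 z hz
  · right; right; right
    rw [← ker_neg] at h ⊢
    refine between hH (neg_hi hi) ?_ ?_
    · rw [← h]
      exact inf_le_left
    · intro z hz n hn
      rw [← h] at hn
      rw [hH.symm]
      exact hn.2 z hz

end Pool.Agent.W924.KU
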